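import Pool.Agent.Helper46.FQ.Final

/-!
Every Delone Fourier quasicrystal set in `ℝ^d` is `Λ(X, L)` for a strict Lee-Yang variety `X` of
dimension `n - d` in `(ℙ¹)^n` and a real `n × d` matrix `L` all of whose `d × d` minors are positive.
-/

open FQ in
theorem Pool.Agent.Results.MP_61ce40_an.DeloneLeeYang.result (d : ℕ)
    (Λ : Set (EuclideanSpace ℝ (Fin d))) (hΛ : IsFQSet Λ) (hD : IsDelone Λ) :
    ∃ (n : ℕ) (X : Set (Fin n → OnePoint ℂ)) (L : Matrix (Fin n) (Fin d) ℝ),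
      IsStrictLeeYang d X ∧ (∀ f : Fin d ↪o Fin n, 0 < (L.submatrix f id).det) ∧ Λ = LYSet X L :=
  main_leeyang Λ hΛ hD
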